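import Pool.Agent.helper3.T6R.Spec

set_option autoImplicit false

namespace Pool.Agent.T6R

open Finset NumberField Pool.Agent.helper3.FT Pool.Agent.helper47.RA Pool.Agent.T5 Pool.Agent.T6
open scoped nonZeroDivisors

variable {K : Type} [Field K] [NumberField K]

/-- the facts on the embeddings -/
structure RMU_E (Q : QF K) : Prop where
  mulA : ∀ a b, emA Q (a * b) = emA Q a * emA Q b
  mulB : ∀ a b, emB Q (a * b) = emB Q a * emB Q b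
  powA : ∀ a (n : ℕ), emA Q (a ^ n) = emA Q a ^ n
  powB : ∀ a (n : ℕ), emB Q (a ^ n) = emB Q a ^ n
  natA : ∀ n : ℕ, emA Q (n : 𝓞 K) = n
  natB : ∀ n : ℕ, emB Q (n : 𝓞 K) = n
  cjA : ∀ a, emA Q (Q.cj a) = emB Q a
  cjB : ∀ a, emB Q (Q.cj a) = emA Q a
  nrm : ∀ a, (Ideal.absNorm (Ideal.span {a}) : ℝ) = |emA Q a * emB Q a|
  neA : ∀ a, a ≠ 0 → emA Q a ≠ 0
  neB : ∀ a, a ≠ 0 → emB Q a ≠ 0
  fin : ∀ B : ℝ, {a : 𝓞 K | |emA Q a| ≤ B ∧ |emB Q a| ≤ B}.Finite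

theorem RMU_mk (hREM : REM_stmt) (Q : QF K) (hD : 0 < Q.D) : RMU_E Q := by
  obtain ⟨⟨f, g, hf, hg⟩, h2, -, h4, -, h6, h7⟩ := hREM K Q hD
  exact
    { mulA := fun a b => by rw [← hf, ← hf, ← hf, map_mul]
      mulB := fun a b => by rw [← hg, ← hg, ← hg, map_mul]
      powA := fun a n => by rw [← hf, ← hf, map_pow]
      powB := fun a n => by rw [← hg, ← hg, map_pow]
      natA := fun n => by rw [← hf, map_natCast]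
      natB := fun n => by rw [← hg, map_natCast]
      cjA := fun a => (h2 a).1
      cjB := fun a => (h2 a).2
      nrm := h4
      neA := fun a ha => (h6 a ha).1
      neB := fun a ha => (h6 a ha).2
      fin := h7 }

theorem RMU_fifth (x : ℝ) (hx : 0 ≤ x) : (x ^ (1 / 5 : ℝ)) ^ 5 = x := by
  rw [← Real.rpow_natCast, ← Real.rpow_mul hx]
  norm_num

theorem RMU_root (y : ℝ) (hy : 0 ≤ y) : (y ^ 5) ^ (1 / 5 : ℝ) = y := by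
  rw [← Real.rpow_natCast, ← Real.rpow_mul hy]
  norm_num

theorem RMU_A0 (Q : QF K) (θ : 𝓞 K) : 0 ≤ xA Q θ := Real.rpow_nonneg (abs_nonneg _) _
theorem RMU_B0 (Q : QF K) (θ : 𝓞 K) : 0 ≤ xB Q θ := Real.rpow_nonneg (abs_nonneg _) _
theorem RMU_A5 (Q : QF K) (θ : 𝓞 K) : xA Q θ ^ 5 = |emA Q θ| := RMU_fifth _ (abs_nonneg _)
theorem RMU_B5 (Q : QF K) (θ : 𝓞 K) : xB Q θ ^ 5 = |emB Q θ| := RMU_fifth _ (abs_nonneg _)

theorem RMU_Aeq (Q : QF K) (θ : 𝓞 K) (y : ℝ) (hy : 0 ≤ y) (h : |emA Q θ| = y ^ 5) : xA Q θ = y := by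
  unfold xA
  rw [h, RMU_root y hy]

theorem RMU_Beq (Q : QF K) (θ : 𝓞 K) (y : ℝ) (hy : 0 ≤ y) (h : |emB Q θ| = y ^ 5) : xB Q θ = y := by
  unfold xB
  rw [h, RMU_root y hy]

theorem RMU_Ap {Q : QF K} (E : RMU_E Q) {θ : 𝓞 K} (h : θ ≠ 0) : 0 < xA Q θ :=
  Real.rpow_pos_of_pos (abs_pos.2 (E.neA θ h)) _

theorem RMU_Bp {Q : QF K} (E : RMU_E Q) {θ : 𝓞 K} (h : θ ≠ 0) : 0 < xB Q θ :=
  Real.rpow_pos_of_pos (abs_pos.2 (E.neB θ h)) _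

theorem RMU_sz0 (Q : QF K) (θ : 𝓞 K) : 0 ≤ sz Q θ := by
  unfold sz
  positivity

/-- the size of a quotient -/
theorem RMU_szdiv {Q : QF K} (E : RMU_E Q) {β ϑ θ' : 𝓞 K} (h : β ^ 5 = ϑ * θ') (hϑ : ϑ ≠ 0) :
    sz Q θ' = qw Q (xA Q ϑ) (xB Q ϑ) β := by
  have hA := RMU_Ap E hϑ
  have hB := RMU_Bp E hϑ
  have h1 : xA Q θ' = |emA Q β| / xA Q ϑ := by
    apply RMU_Aeq Q θ' _ (by positivity)
    rw [div_pow, RMU_A5, eq_div_iff (abs_ne_zero.2 (E.neA ϑ hϑ)), ← abs_mul, ← abs_pow, ← E.powA, h, E.mulA, mul_comm]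
  have h2 : xB Q θ' = |emB Q β| / xB Q ϑ := by
    apply RMU_Beq Q θ' _ (by positivity)
    rw [div_pow, RMU_B5, eq_div_iff (abs_ne_zero.2 (E.neB ϑ hϑ)), ← abs_mul, ← abs_pow, ← E.powB, h, E.mulB, mul_comm]
  unfold sz qw
  rw [h1, h2, div_pow, div_pow, div_pow, div_pow, sq_abs, sq_abs]

theorem RMU_le (Q : QF K) (I : (Ideal (𝓞 K))⁰) (θ : 𝓞 K) (h : Ideal.span {θ} = (I : Ideal (𝓞 K)) ^ 5) :
    Mn Q (ClassGroup.mk0 I) ≤ sz Q θ := by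
  apply csInf_le
  · refine ⟨0, ?_⟩
    rintro r ⟨-, θ', -, -, rfl⟩
    exact RMU_sz0 Q θ'
  · exact ⟨I, θ, rfl, h, rfl⟩

theorem RMU_ex {Q : QF K} (E : RMU_E Q) (c : ClassGroup (𝓞 K)) (hc : c ^ 5 = 1) :
    ∃ (I : (Ideal (𝓞 K))⁰) (θ : 𝓞 K), ClassGroup.mk0 I = c ∧
      Ideal.span {θ} = (I : Ideal (𝓞 K)) ^ 5 ∧ sz Q θ = Mn Q c := by
  obtain ⟨S, hS⟩ : ∃ S : Set ℝ, S = {r : ℝ | ∃ (I : (Ideal (𝓞 K))⁰) (θ : 𝓞 K), ClassGroup.mk0 I = c ∧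
    Ideal.span {θ} = (I : Ideal (𝓞 K)) ^ 5 ∧ sz Q θ = r} := ⟨_, rfl⟩
  have hne : S.Nonempty := by
    obtain ⟨I, hI⟩ := ClassGroup.mk0_surjective c
    have h1 : ClassGroup.mk0 (I ^ 5) = 1 := by rw [map_pow, hI, hc]
    obtain ⟨B, hB, hB'⟩ : ∃ B : Ideal (𝓞 K), ∃ hB : B ∈ (Ideal (𝓞 K))⁰, I ^ 5 = ⟨B, hB⟩ := ⟨_, (I ^ 5).2, rfl⟩
    rw [hB', ClassGroup.mk0_eq_one_iff] at h1
    obtain ⟨θ, hθ⟩ := h1.principal
    have h2 : (I : Ideal (𝓞 K)) ^ 5 = B := congrArg Subtype.val hB'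
    have h3 : B = Ideal.span {θ} := hθ
    refine ⟨sz Q θ, ?_⟩
    rw [hS]
    exact ⟨I, θ, hI, by rw [h2, h3], rfl⟩
  obtain ⟨b, hb⟩ := hne
  have hb0 : 0 ≤ b := by
    have h1 := hb
    rw [hS] at h1
    obtain ⟨-, θ, -, -, rfl⟩ := h1
    exact RMU_sz0 Q θ
  have hfin : (S ∩ Set.Iic b).Finite := by
    apply ((E.fin ((1 + b) ^ 5)).image (sz Q)).subset
    rintro r ⟨hr, hrb⟩
    rw [hS] at hr
    obtain ⟨-, θ, -, -, rfl⟩ := hr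
    refine ⟨θ, ?_, rfl⟩
    have hle : xA Q θ ^ 2 + xB Q θ ^ 2 ≤ b := hrb
    have hA := RMU_A0 Q θ
    have hB := RMU_B0 Q θ
    constructor
    · rw [← RMU_A5]
      exact pow_le_pow_left₀ hA (by nlinarith [sq_nonneg (xA Q θ - 1), sq_nonneg (xB Q θ)]) 5
    · rw [← RMU_B5]
      exact pow_le_pow_left₀ hB (by nlinarith [sq_nonneg (xB Q θ - 1), sq_nonneg (xA Q θ)]) 5
  obtain ⟨r₀, hr₀, hmin⟩ := Set.exists_min_image (S ∩ Set.Iic b) id hfin ⟨b, hb, le_refl b⟩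
  have hleast : IsLeast S r₀ := by
    refine ⟨hr₀.1, ?_⟩
    intro r hr
    rcases le_total r b with h | h
    · exact hmin r ⟨hr, h⟩
    · exact le_trans hr₀.2 h
  have h1 : Mn Q c = r₀ := by
    unfold Mn
    rw [← hS]
    exact hleast.csInf_eq
  have h2 := hr₀.1
  rw [hS] at h2
  obtain ⟨I, θ, hI, hθ, hr⟩ := h2
  exact ⟨I, θ, hI, hθ, by rw [hr, h1]⟩

omit [NumberField K] in
theorem RMU_gen0 {I : (Ideal (𝓞 K))⁰} {θ : 𝓞 K} (h : Ideal.span {θ} = (I : Ideal (𝓞 K)) ^ 5) : θ ≠ 0 := by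
  rintro rfl
  rw [Ideal.span_singleton_eq_bot.2 rfl] at h
  exact nonZeroDivisors.coe_ne_zero I (pow_eq_zero_iff (by norm_num)|>.1 h.symm)

theorem RMU_ab {Q : QF K} (E : RMU_E Q) {I : (Ideal (𝓞 K))⁰} {θ : 𝓞 K}
    (h : Ideal.span {θ} = (I : Ideal (𝓞 K)) ^ 5) :
    xA Q θ * xB Q θ = (Ideal.absNorm (I : Ideal (𝓞 K)) : ℝ) := by
  have h1 : (xA Q θ * xB Q θ) ^ 5 = ((Ideal.absNorm (I : Ideal (𝓞 K)) : ℝ)) ^ 5 := by
    rw [mul_pow, RMU_A5, RMU_B5, ← abs_mul, ← E.nrm, h, map_pow]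
    push_cast
    rfl
  exact (pow_left_inj₀ (mul_nonneg (RMU_A0 Q θ) (RMU_B0 Q θ)) (Nat.cast_nonneg _) (by norm_num)).1 h1

/-- two nonzero ideals with principal product are inverse classes -/
theorem RMU_inv (I J : (Ideal (𝓞 K))⁰) (α : 𝓞 K)
    (h : (I : Ideal (𝓞 K)) * (J : Ideal (𝓞 K)) = Ideal.span {α}) :
    ClassGroup.mk0 J = (ClassGroup.mk0 I)⁻¹ := by
  have h1 : ClassGroup.mk0 (I * J) = 1 := by
    have h2 : ((I * J : (Ideal (𝓞 K))⁰) : Ideal (𝓞 K)) = Ideal.span {α} := h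
    rw [← Subtype.coe_eta (I * J) (I * J).2, ClassGroup.mk0_eq_one_iff, h2]
    exact ⟨⟨α, rfl⟩⟩
  rw [map_mul] at h1
  exact eq_inv_of_mul_eq_one_right h1

/-- the cofactor of a nonzero element -/
theorem RMU_cof (I : (Ideal (𝓞 K))⁰) (α : 𝓞 K) (hα : α ∈ (I : Ideal (𝓞 K))) (h0 : α ≠ 0) :
    ∃ J : (Ideal (𝓞 K))⁰, (I : Ideal (𝓞 K)) * (J : Ideal (𝓞 K)) = Ideal.span {α} := by
  obtain ⟨J, hJ⟩ := Ideal.dvd_span_singleton.2 hα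
  have hJ0 : J ≠ ⊥ := by
    intro h
    rw [h, Ideal.mul_bot, Ideal.span_singleton_eq_bot] at hJ
    exact h0 hJ
  exact ⟨⟨J, mem_nonZeroDivisors_of_ne_zero hJ0⟩, hJ.symm⟩

theorem RMU_pos (I : (Ideal (𝓞 K))⁰) : 0 < Ideal.absNorm (I : Ideal (𝓞 K)) := by
  rw [Nat.pos_iff_ne_zero, Ne, Ideal.absNorm_eq_zero_iff]
  exact nonZeroDivisors.coe_ne_zero I

theorem RMU_inv_le {Q : QF K} (E : RMU_E Q) (c : ClassGroup (𝓞 K)) (hc : c ^ 5 = 1) : Mn Q c⁻¹ ≤ Mn Q c := by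
  obtain ⟨I, θ, hI, hθ, hs⟩ := RMU_ex E c hc
  have hb := Q.mul_bar (I : Ideal (𝓞 K))
  have hb0 : Q.bar (I : Ideal (𝓞 K)) ≠ ⊥ := by
    intro h
    have h1 := Q.absNorm_bar (I : Ideal (𝓞 K))
    rw [h, Ideal.absNorm_bot] at h1
    exact (RMU_pos I).ne h1
  have h2 := RMU_inv I ⟨Q.bar (I : Ideal (𝓞 K)), mem_nonZeroDivisors_of_ne_zero hb0⟩ _ hb
  have h3 : Ideal.span {Q.cj θ} = (Q.bar (I : Ideal (𝓞 K))) ^ 5 := by
    rw [← Q.bar_span, hθ, Q.bar_pow]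
  have h4 := RMU_le Q (⟨Q.bar (I : Ideal (𝓞 K)), mem_nonZeroDivisors_of_ne_zero hb0⟩ : (Ideal (𝓞 K))⁰) (Q.cj θ) h3
  rw [h2, hI] at h4
  have h5 : sz Q (Q.cj θ) = sz Q θ := by
    unfold sz xA xB
    rw [E.cjA, E.cjB, add_comm]
  rw [h5, hs] at h4
  exact h4

theorem RMU_inv_eq {Q : QF K} (E : RMU_E Q) (c : ClassGroup (𝓞 K)) (hc : c ^ 5 = 1) : Mn Q c⁻¹ = Mn Q c := by
  refine le_antisymm (RMU_inv_le E c hc) ?_
  have h := RMU_inv_le E c⁻¹ (by rw [inv_pow, hc, inv_one])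
  rwa [inv_inv] at h

/-- the key step: `(β) = A J`, `(ϑ) = A⁵` -/
theorem RMU_key {Q : QF K} (E : RMU_E Q) (A J : (Ideal (𝓞 K))⁰) (ϑ β : 𝓞 K)
    (hϑ : Ideal.span {ϑ} = (A : Ideal (𝓞 K)) ^ 5) (h : (A : Ideal (𝓞 K)) * (J : Ideal (𝓞 K)) = Ideal.span {β}) :
    (ClassGroup.mk0 J) ^ 5 = 1 ∧ Mn Q (ClassGroup.mk0 J) ≤ qw Q (xA Q ϑ) (xB Q ϑ) β := by
  have h0 := RMU_gen0 hϑ
  have h1 : Ideal.span {β ^ 5} = Ideal.span {ϑ} * (J : Ideal (𝓞 K)) ^ 5 := by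
    rw [← Ideal.span_singleton_pow, ← h, mul_pow, hϑ]
  obtain ⟨θ', h2, h3⟩ := exists_div_aux _ _ h0 _ h1
  constructor
  · rw [← map_pow]
    have h4 : ((J ^ 5 : (Ideal (𝓞 K))⁰) : Ideal (𝓞 K)) = Ideal.span {θ'} := h3.symm
    rw [← Subtype.coe_eta (J ^ 5) (J ^ 5).2, ClassGroup.mk0_eq_one_iff, h4]
    exact ⟨⟨θ', rfl⟩⟩
  · rw [← RMU_szdiv E h2 h0]
    exact RMU_le Q J θ' h3

theorem RMU (hREM : REM_stmt) (hRLB : RLB_stmt) : RMU_stmt := by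
  intro K _ _ Q hD
  have E := RMU_mk hREM Q hD
  refine ⟨RMU_ex E, RMU_le Q, ?_, ?_, ?_⟩
  · intro c hc
    refine ⟨?_, RMU_inv_eq E c hc, ?_⟩
    · obtain ⟨I, θ, -, hθ, hs⟩ := RMU_ex E c hc
      rw [← hs]
      have h1 := RMU_ab E hθ
      have h2 : (1 : ℝ) ≤ Ideal.absNorm (I : Ideal (𝓞 K)) := by exact_mod_cast RMU_pos I
      unfold sz
      nlinarith [sq_nonneg (xA Q θ - xB Q θ)]
    · obtain ⟨I, θ, hI, hθ, -⟩ := RMU_ex E c⁻¹ (by rw [inv_pow, hc, inv_one])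
      have h0 := RMU_gen0 hθ
      obtain ⟨e₁, e₂, hR, -, hq⟩ := hRLB K Q hD (I : Ideal (𝓞 K)) (nonZeroDivisors.coe_ne_zero I)
        (xA Q θ) (xB Q θ) (RMU_Ap E h0) (RMU_Bp E h0)
      obtain ⟨J, hJ⟩ := RMU_cof I e₁ hR.m1 hR.ne
      have h1 := RMU_inv I J _ hJ
      rw [hI, inv_inv] at h1
      have h2 := (RMU_key E I J θ e₁ hθ hJ).2
      rw [h1] at h2
      refine h2.trans ?_
      rw [RMU_ab E hθ] at hq
      have h6 : (0 : ℝ) < Ideal.absNorm (I : Ideal (𝓞 K)) := by exact_mod_cast RMU_pos I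
      refine le_of_mul_le_mul_left ?_ h6
      linarith
  · intro I θ hθ hs q hq hdvd
    obtain ⟨J, hJ⟩ := hdvd
    have hJ0 : J ≠ ⊥ := by
      intro h
      rw [h, Ideal.mul_bot] at hJ
      exact nonZeroDivisors.coe_ne_zero I hJ
    have hq0 : ((q : ℕ) : 𝓞 K) ≠ 0 := Nat.cast_ne_zero.2 hq.ne_zero
    have hq0' : Ideal.span {((q : ℕ) : 𝓞 K)} ≠ ⊥ := by
      rwa [Ne, Ideal.span_singleton_eq_bot]
    have h1 : ClassGroup.mk0 I = ClassGroup.mk0 (⟨J, mem_nonZeroDivisors_of_ne_zero hJ0⟩ : (Ideal (𝓞 K))⁰) := by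
      have h2 : I = (⟨_, mem_nonZeroDivisors_of_ne_zero hq0'⟩ : (Ideal (𝓞 K))⁰) *
          ⟨J, mem_nonZeroDivisors_of_ne_zero hJ0⟩ := Subtype.ext hJ
      have h3 : ClassGroup.mk0 (⟨_, mem_nonZeroDivisors_of_ne_zero hq0'⟩ : (Ideal (𝓞 K))⁰) = 1 := by
        rw [ClassGroup.mk0_eq_one_iff]
        exact ⟨⟨_, rfl⟩⟩
      rw [h2, map_mul, h3, one_mul]
    have h4 : Ideal.span {θ} = Ideal.span {((q : ℕ) : 𝓞 K) ^ 5} * J ^ 5 := by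
      rw [hθ, hJ, mul_pow, Ideal.span_singleton_pow]
    obtain ⟨θ', h5, h6⟩ := exists_div_aux _ _ (pow_ne_zero 5 hq0) _ h4
    have h7 := RMU_le Q (⟨J, mem_nonZeroDivisors_of_ne_zero hJ0⟩ : (Ideal (𝓞 K))⁰) θ' h6
    rw [← h1, ← hs] at h7
    have hqR : (0 : ℝ) ≤ q := Nat.cast_nonneg q
    have hA : xA Q θ = q * xA Q θ' := by
      apply RMU_Aeq Q θ _ (mul_nonneg hqR (RMU_A0 Q θ'))
      rw [h5, E.mulA, E.powA, E.natA, abs_mul, mul_pow, RMU_A5, abs_of_nonneg (by positivity : (0 : ℝ) ≤ (q : ℝ) ^ 5)]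
    have hB : xB Q θ = q * xB Q θ' := by
      apply RMU_Beq Q θ _ (mul_nonneg hqR (RMU_B0 Q θ'))
      rw [h5, E.mulB, E.powB, E.natB, abs_mul, mul_pow, RMU_B5, abs_of_nonneg (by positivity : (0 : ℝ) ≤ (q : ℝ) ^ 5)]
    have h8 : sz Q θ = (q : ℝ) ^ 2 * sz Q θ' := by
      unfold sz
      rw [hA, hB]
      ring
    have h9 : 0 < sz Q θ := by
      have := RMU_Ap E (RMU_gen0 hθ)
      unfold sz
      positivity
    have h10 : (2 : ℝ) ≤ q := by exact_mod_cast hq.two_le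
    have h11 : 0 < sz Q θ' := lt_of_lt_of_le h9 h7
    have h12 : (4 : ℝ) ≤ (q : ℝ) ^ 2 := by nlinarith
    have h13 := mul_le_mul_of_nonneg_right h12 h11.le
    linarith
  · intro I θ hθ α hα h0
    obtain ⟨A, hA, hA2⟩ : ∃ A : (Ideal (𝓞 K))⁰, (A : Ideal (𝓞 K)) = (I : Ideal (𝓞 K)) ^ 2 ∧
        ClassGroup.mk0 A = ClassGroup.mk0 I ^ 2 := ⟨I ^ 2, rfl, map_pow _ _ _⟩
    obtain ⟨J, hJ⟩ := RMU_cof A α (by rw [hA]; exact hα) h0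
    have h1 := RMU_inv A J _ hJ
    have h2 : Ideal.span {θ ^ 2} = (A : Ideal (𝓞 K)) ^ 5 := by
      rw [hA, ← Ideal.span_singleton_pow, hθ, ← pow_mul, ← pow_mul]
    obtain ⟨h3, h4⟩ := RMU_key E A J (θ ^ 2) α h2 hJ
    have h5 := RMU_inv_eq E _ h3
    rw [h1, inv_inv, hA2] at h5
    rw [h5, ← hA2, ← h1]
    have h6 : xA Q (θ ^ 2) = xA Q θ ^ 2 := by
      apply RMU_Aeq Q _ _ (by positivity)
      rw [E.powA, abs_pow, ← RMU_A5]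
      ring
    have h7 : xB Q (θ ^ 2) = xB Q θ ^ 2 := by
      apply RMU_Beq Q _ _ (by positivity)
      rw [E.powB, abs_pow, ← RMU_B5]
      ring
    unfold qf
    rw [← h6, ← h7]
    exact h4

end Pool.Agent.T6R
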